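import Pool.Agent.Helper73.Dil.Surf

/-!
# Module S_HOL: holomorphic dependence
-/

namespace Pool.Agent.Helper55.Dil

open Pool.Agent.Helper73.Dil MeasureTheory Set Topology Filter Metric

open Pool.Agent.Helper73.Dil.DilationSurface

universe u

theorem tc_zero (t : ℂ) : tc t 0 = 0 := by simp [tc]

theorem tc_linear (t : ℂ) : IsLinearMap ℝ (tc t) := by
  constructor
  · intro x y
    simp only [tc, Complex.add_re, Complex.add_im]
    push_cast
    ring
  · intro a x
    simp only [tc, Complex.real_smul, Complex.mul_re, Complex.mul_im, Complex.ofReal_re,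
      Complex.ofReal_im, zero_mul, sub_zero, add_zero]
    push_cast
    ring

/-- the inverse of `tc t` -/
noncomputable def tci (t w : ℂ) : ℂ := ⟨w.re - t.re * (w.im / t.im), w.im / t.im⟩

theorem tci_tc {t : ℂ} (ht : t ∈ UH) (z : ℂ) : tci t (tc t z) = z := by
  have h : t.im ≠ 0 := ne_of_gt ht
  apply Complex.ext
  · simp only [tci, tc, Complex.add_re, Complex.add_im, Complex.ofReal_re, Complex.ofReal_im,
      Complex.mul_re, Complex.mul_im, mul_zero, sub_zero, zero_add]
    field_simp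
    ring
  · simp only [tci, tc, Complex.add_im, Complex.ofReal_im,
      Complex.mul_im, Complex.ofReal_re, mul_zero, zero_add]
    field_simp

theorem tc_tci {t : ℂ} (ht : t ∈ UH) (w : ℂ) : tc t (tci t w) = w := by
  have h : t.im ≠ 0 := ne_of_gt ht
  apply Complex.ext
  · simp only [tci, tc, Complex.add_re, Complex.ofReal_re, Complex.ofReal_im,
      Complex.mul_re, mul_zero, sub_zero]
    ring
  · simp only [tci, tc, Complex.add_im, Complex.ofReal_im,
      Complex.mul_im, Complex.ofReal_re, mul_zero, zero_add]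
    field_simp

theorem tc_cont (t : ℂ) : Continuous (tc t) := by unfold tc; fun_prop

theorem tci_cont (t : ℂ) : Continuous (tci t) := by
  have : tci t = fun w : ℂ => ((w.re - t.re * (w.im / t.im) : ℝ) : ℂ) +
      ((w.im / t.im : ℝ) : ℂ) * Complex.I := by
    funext w
    apply Complex.ext <;> simp [tci]
  rw [this]
  fun_prop

theorem tc_image {t : ℂ} (ht : t ∈ UH) (s : Set ℂ) : tc t '' s = tci t ⁻¹' s := by
  ext w
  constructor
  · rintro ⟨z, hz, rfl⟩
    rw [mem_preimage, tci_tc ht]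
    exact hz
  · intro hw
    exact ⟨tci t w, hw, tc_tci ht w⟩

theorem tc_open {t : ℂ} (ht : t ∈ UH) : IsOpen (tc t '' B1) := by
  rw [tc_image ht]
  exact isOpen_ball.preimage (tci_cont t)

theorem tc_convex (t : ℂ) : Convex ℝ (tc t '' B1) :=
  (convex_ball _ _).is_linear_image (tc_linear t)

theorem zero_mem_B1 : (0 : ℂ) ∈ B1 := mem_ball_self one_pos

theorem eq_of_ae_deriv {t : ℂ} (ht : t ∈ UH) {u w : ℂ → ℂ}
    (hu : DifferentiableOn ℂ u (tc t '' B1)) (hw : DifferentiableOn ℂ w (tc t '' B1))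
    (h : (fun z => deriv u (tc t z)) =ᵐ[volume.restrict B1] fun z => deriv w (tc t z)) :
    ∀ z ∈ B1, w (tc t z) - w (tc t 0) = u (tc t z) - u (tc t 0) := by
  have ho := tc_open ht
  have hmap : MapsTo (tc t) B1 (tc t '' B1) := fun z hz => ⟨z, hz, rfl⟩
  have cu : ContinuousOn (fun z => deriv u (tc t z)) B1 :=
    (hu.deriv ho).continuousOn.comp (tc_cont t).continuousOn hmap
  have cw : ContinuousOn (fun z => deriv w (tc t z)) B1 :=
    (hw.deriv ho).continuousOn.comp (tc_cont t).continuousOn hmap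
  have heq : EqOn (fun z => deriv u (tc t z)) (fun z => deriv w (tc t z)) B1 :=
    Measure.eqOn_open_of_ae_eq h isOpen_ball cu cw
  have hd : DifferentiableOn ℂ (fun x => w x - u x) (tc t '' B1) := hw.sub hu
  have hd0 : EqOn (deriv fun x => w x - u x) 0 (tc t '' B1) := by
    rintro _ ⟨z, hz, rfl⟩
    have h1 := (hw _ (hmap hz)).differentiableAt (ho.mem_nhds (hmap hz))
    have h2 := (hu _ (hmap hz)).differentiableAt (ho.mem_nhds (hmap hz))
    rw [deriv_fun_sub h1 h2]
    have := heq hz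
    simp only at this
    rw [this, sub_self]
    rfl
  intro z hz
  have := ho.is_const_of_deriv_eq_zero (tc_convex t).isPreconnected hd hd0 (hmap hz)
    (hmap zero_mem_B1)
  linear_combination this

theorem sb_HOL (hK : ST_KER) (hWCL : SB_WCL.{u}) (hLOCL : SB_LOCL.{u}) (hCONN : SB_CONN.{u})
    (hBALL : SB_BALL.{u}) : SB_HOL.{u} := by
  intro X _ _ _ _ _ _ D R S A c f hA hc hcf x y hx hy
  obtain ⟨hconn, hopen⟩ := hCONN X D
  let Rel : X → X → Prop := fun x y => ∃ h : ℂ → ℂ, DifferentiableOn ℂ h UH ∧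
    ∀ t ∈ UH, f t x - f t y = (h t).re
  have hsymm : ∀ x y, Rel x y → Rel y x := by
    rintro x y ⟨h, h1, h2⟩
    refine ⟨fun t => -h t, h1.neg, fun t ht => ?_⟩
    rw [Complex.neg_re, ← h2 t ht]
    ring
  have htrans : ∀ x y z, Rel x y → Rel y z → Rel x z := by
    rintro x y z ⟨h, h1, h2⟩ ⟨h', h1', h2'⟩
    refine ⟨fun t => h t + h' t, h1.add h1', fun t ht => ?_⟩
    rw [Complex.add_re, ← h2 t ht, ← h2' t ht]
    ring
  have hrefl : ∀ x, Rel x x := fun x => ⟨fun _ => 0, differentiableOn_const _, fun t _ => by simp⟩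
  -- local statement
  have hloc : ∀ x, x ∉ D.cone → ∃ N, IsOpen N ∧ x ∈ N ∧ ∀ y ∈ N, Rel y x := by
    intro x hx
    obtain ⟨b, hb, hxb, hb0, -⟩ := hBALL X D x hx univ univ_mem
    obtain ⟨L, hL1, -, hL3⟩ := (hLOCL X D R).1 b hb
    have hLd : DifferentiableOn ℂ (fun t => L (c t)) UH :=
      L.differentiable.comp_differentiableOn hc
    have hW : ∀ t ∈ UH, WClosed (L (c t)) (fun z => t * L (c t) z) := by
      intro t ht
      have h1 := hWCL X D R S A hA (c t, t • c t) (fun ε hε => (hcf t ht).1.1 ε hε) b hb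
      have h2 : R.loc b (t • c t : R.H) =ᵐ[volume.restrict B1] fun z => t * R.loc b (c t) z := by
        have h3 := hL3 (t • c t) (fun x => t * c t x) (by
          filter_upwards [Lp.coeFn_smul t (c t)] with x hx
          rw [hx]
          rfl)
        refine h3.trans (Eventually.of_forall fun z => ?_)
        simp only [Ref.loc]
        ring
      intro a ha
      rw [← h1 a ha]
      refine integral_congr_ae ?_
      filter_upwards [hL1 (c t), h2] with z hz1 hz2
      rw [hz1, hz2]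
    obtain ⟨U, hU1, hU2, hU3, -⟩ := hK (fun t => L (c t)) hLd hW
    refine ⟨b.source ∩ b ⁻¹' Bh, b.isOpen_inter_preimage isOpen_ball, ⟨hxb, ?_⟩, ?_⟩
    · rw [mem_preimage, hb0]
      exact mem_ball_self (by norm_num)
    rintro y ⟨hyb, hyh⟩
    rw [mem_preimage] at hyh
    have hyB1 : b y ∈ B1 := ball_subset_ball (by norm_num) hyh
    refine ⟨fun t => U t (b y) - ((S.u b y - S.u b x : ℝ) : ℂ),
      (hU3 (b y) hyh).sub (differentiableOn_const _), fun t ht => ?_⟩
    obtain ⟨u, hu1, hu2, hu3⟩ := hU1 t ht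
    obtain ⟨w, hw1, hw2, hw3⟩ := (hcf t ht).2 b hb
    have hae : (fun z => deriv u (tc t z)) =ᵐ[volume.restrict B1] fun z => deriv w (tc t z) :=
      hu3.symm.trans ((hL1 (c t)).trans hw2)
    have h1 := eq_of_ae_deriv ht hu1 hw1 hae (b y) hyB1
    have h2 := hw3 (b y) hyB1
    have h3 := hw3 0 zero_mem_B1
    rw [b.left_inv hyb] at h2
    rw [← hb0, b.left_inv hxb, hb0] at h3
    have h4 := hU2 t ht
    rw [hu2 0 zero_mem_B1] at h4
    have h5 := hu2 (b y) hyB1
    rw [Complex.sub_re, Complex.ofReal_re, h5]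
    have h6 : (w (tc t (b y)) - w (tc t 0)).re = (u (tc t (b y)) - u (tc t 0)).re := by rw [h1]
    rw [h4, sub_zero, Complex.sub_re] at h6
    linarith
  -- connectedness
  have hpre := isPreconnected_iff_subset_of_disjoint.1 hconn.isPreconnected
  obtain ⟨P, hP⟩ : ∃ P : Set X, P = {z | ∃ N, IsOpen N ∧ z ∈ N ∧ ∀ z' ∈ N, Rel z' x} := ⟨_, rfl⟩
  obtain ⟨Q, hQ⟩ : ∃ Q : Set X, Q = {z | ∃ N, IsOpen N ∧ z ∈ N ∧ ∀ z' ∈ N, ¬ Rel z' x} := ⟨_, rfl⟩
  have hPo : IsOpen P := by
    rw [isOpen_iff_mem_nhds]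
    intro z hz
    rw [hP] at hz ⊢
    obtain ⟨N, h1, h2, h3⟩ := hz
    exact mem_of_superset (h1.mem_nhds h2) fun z' hz' => ⟨N, h1, hz', h3⟩
  have hQo : IsOpen Q := by
    rw [isOpen_iff_mem_nhds]
    intro z hz
    rw [hQ] at hz ⊢
    obtain ⟨N, h1, h2, h3⟩ := hz
    exact mem_of_superset (h1.mem_nhds h2) fun z' hz' => ⟨N, h1, hz', h3⟩
  have hcov : (D.cone)ᶜ ⊆ P ∪ Q := by
    intro z hz
    obtain ⟨N, h1, h2, h3⟩ := hloc z hz
    by_cases hr : Rel z x
    · left
      rw [hP]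
      exact ⟨N, h1, h2, fun z' hz' => htrans _ _ _ (h3 z' hz') hr⟩
    · right
      rw [hQ]
      exact ⟨N, h1, h2, fun z' hz' h4 => hr (htrans _ _ _ (hsymm _ _ (h3 z' hz')) h4)⟩
  have hdis : (D.cone)ᶜ ∩ (P ∩ Q) = ∅ := by
    rw [eq_empty_iff_forall_notMem]
    rintro z ⟨-, h1, h2⟩
    rw [hP] at h1
    rw [hQ] at h2
    obtain ⟨N, -, hzN, h3⟩ := h1
    obtain ⟨N', -, hzN', h4⟩ := h2
    exact h4 z hzN' (h3 z hzN)
  have hsub : (D.cone)ᶜ ⊆ P := by
    rcases hpre P Q hPo hQo hcov hdis with h | h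
    · exact h
    · exfalso
      have := h hx
      rw [hQ] at this
      obtain ⟨N, -, hxN, h3⟩ := this
      exact h3 x hxN (hrefl x)
  have hyP := hsub hy
  rw [hP] at hyP
  obtain ⟨N, -, hyN, h3⟩ := hyP
  exact hsymm _ _ (h3 y hyN)

end Pool.Agent.Helper55.Dil
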