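import Pool.Agent.Helper73.Dil.Pure

/-!
# Module DRIFT: the average of `tn^{-1/2}` over a small circle
-/

namespace Pool.Agent.Helper55.Dil

open Pool.Agent.Helper73.Dil MeasureTheory Set

/-- the square of `tn` -/
noncomputable def qn (M : G) : ℝ :=
  ((M.1 0 0 - M.1 1 1) / 2) ^ 2 + (M.1 0 1 ^ 2 + M.1 1 0 ^ 2) / 2

theorem tn_eq (M : G) : tn M = Real.sqrt (qn M) := rfl

theorem qn_nonneg (M : G) : 0 ≤ qn M := by unfold qn; positivity

theorem tn_rpow (M : G) : (tn M) ^ (-(1 / 2) : ℝ) = (qn M) ^ (-(1 / 4) : ℝ) := by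
  rw [tn_eq, Real.sqrt_eq_rpow, ← Real.rpow_mul (qn_nonneg M)]
  norm_num

/-- entries of a conjugate -/
theorem conj_entries (M : G) (r θ : ℝ) :
    qn ((dia r * rot θ) * M * (dia r * rot θ)⁻¹) =
      (((M.1 0 0 - M.1 1 1) / 2) * Real.cos (2 * θ) -
        ((M.1 0 1 + M.1 1 0) / 2) * Real.sin (2 * θ)) ^ 2 +
      (Real.exp (2 * r) * ((((M.1 0 0 - M.1 1 1) / 2) * Real.sin (2 * θ) +
        ((M.1 0 1 + M.1 1 0) / 2) * Real.cos (2 * θ)) + (M.1 0 1 - M.1 1 0) / 2) ^ 2 +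
       (Real.exp (2 * r))⁻¹ * ((((M.1 0 0 - M.1 1 1) / 2) * Real.sin (2 * θ) +
        ((M.1 0 1 + M.1 1 0) / 2) * Real.cos (2 * θ)) - (M.1 0 1 - M.1 1 0) / 2) ^ 2) / 2 := by
  have hE : Real.exp (r / 2) * Real.exp (-(r / 2)) = 1 := by
    rw [← Real.exp_add]; simp
  have hE2 : Real.exp (2 * r) = Real.exp (r / 2) ^ 4 := by
    rw [← Real.exp_nat_mul]; congr 1; push_cast; ring
  have hE3 : (Real.exp (2 * r))⁻¹ = Real.exp (-(r / 2)) ^ 4 := by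
    rw [← Real.exp_neg, ← Real.exp_nat_mul]; congr 1; push_cast; ring
  have hcs := Real.sin_sq_add_cos_sq θ
  rw [hE3, hE2, Real.cos_two_mul, Real.sin_two_mul]
  unfold qn
  simp only [dia, rot, Matrix.SpecialLinearGroup.coe_mul, Matrix.SpecialLinearGroup.coe_inv,
    mul_inv_rev, Matrix.adjugate_fin_two_of, Matrix.mul_apply, Fin.sum_univ_two,
    Matrix.of_apply, Matrix.cons_val', Matrix.cons_val_zero, Matrix.cons_val_one,
    Matrix.cons_val_fin_one]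
  generalize Real.exp (r / 2) = E at *
  generalize Real.exp (-(r / 2)) = F at *
  generalize Real.sin θ = s at *
  generalize Real.cos θ = c at *
  generalize (M.1 0 0) = a
  generalize (M.1 0 1) = b
  generalize (M.1 1 0) = p
  generalize (M.1 1 1) = q
  have key : ∀ A B C A' u w : ℝ, A / 2 = A' → B = E ^ 2 * u → C = F ^ 2 * w →
      (A / 2) ^ 2 + (B ^ 2 + C ^ 2) / 2 = A' ^ 2 + (E ^ 4 * u ^ 2 + F ^ 4 * w ^ 2) / 2 := by
    rintro A B C A' u w h1 h2 h3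
    rw [h1, h2, h3]
    ring
  refine key _ _ _ _ _ _ ?_ ?_ ?_
  · linear_combination (((c ^ 2 - s ^ 2) * (a - q) - 2 * s * c * (p + b)) / 2) * hE -
      ((a - q) / 2) * hcs
  · linear_combination (-E ^ 2 * p) * hcs
  · linear_combination (-F ^ 2 * b) * hcs

theorem qn_zero {M : G} (h : qn M = 0) : ∃ a : ℝ, M.1 = a • (1 : Matrix (Fin 2) (Fin 2) ℝ) := by
  unfold qn at h
  have n1 := sq_nonneg (M.1 0 1)
  have n2 := sq_nonneg (M.1 1 0)
  have n3 := sq_nonneg ((M.1 0 0 - M.1 1 1) / 2)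
  have h1 : ((M.1 0 0 - M.1 1 1) / 2) ^ 2 = 0 := by linarith
  have h2 : M.1 0 1 ^ 2 = 0 := by linarith
  have h3 : M.1 1 0 ^ 2 = 0 := by linarith
  have e1 : M.1 0 0 = M.1 1 1 := by
    have := pow_eq_zero_iff (two_ne_zero) |>.1 h1
    linarith
  have e2 := pow_eq_zero_iff (two_ne_zero) |>.1 h2
  have e3 := pow_eq_zero_iff (two_ne_zero) |>.1 h3
  refine ⟨M.1 0 0, ?_⟩
  ext i j
  fin_cases i <;> fin_cases j <;> simp [e1, e2, e3]

theorem qn_conj_pos (g γ : G) (h : tn γ ≠ 0) : 0 < qn (g * γ * g⁻¹) := by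
  refine lt_of_le_of_ne (qn_nonneg _) fun h0 => h ?_
  obtain ⟨a, ha⟩ := qn_zero h0.symm
  have hγ : γ = g⁻¹ * (g * γ * g⁻¹) * g := by group
  have h1 : γ.1 = a • (1 : Matrix (Fin 2) (Fin 2) ℝ) := by
    rw [hγ, Matrix.SpecialLinearGroup.coe_mul, Matrix.SpecialLinearGroup.coe_mul, ha,
      Matrix.mul_smul, mul_one, Matrix.smul_mul, ← Matrix.SpecialLinearGroup.coe_mul,
      inv_mul_cancel, Matrix.SpecialLinearGroup.coe_one]
  rw [tn_eq]
  unfold qn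
  rw [h1]
  simp

/-! ### The scalar inequality -/

theorem scalar_ineq {d : ℝ} (hd : |d| ≤ 1 / 10) :
    (1 + d) ^ (-(1 / 4) : ℝ) ≤ 1 - d / 4 + 5 / 32 * d ^ 2 + |d| ^ 3 := by
  obtain ⟨hd1, hd2⟩ := abs_le.1 hd
  have ha0 : 0 ≤ |d| := abs_nonneg d
  have hd3 : d ^ 2 = |d| ^ 2 := (sq_abs d).symm
  have hle : d ≤ |d| := le_abs_self d
  have hge : -|d| ≤ d := neg_abs_le d
  have hpos : 0 < 1 + d := by linarith
  obtain ⟨w, hw⟩ : ∃ w : ℝ, w = 5 / 32 * |d| ^ 2 + |d| ^ 3 := ⟨_, rfl⟩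
  have hw0 : 0 ≤ w := by rw [hw]; positivity
  have hw1 : w ≤ |d| ^ 2 / 2 := by
    rw [hw]
    nlinarith [mul_nonneg (sq_nonneg |d|) (sub_nonneg.2 hd)]
  have hw2 : w ≤ |d| / 20 := by nlinarith
  obtain ⟨u, hu⟩ : ∃ u : ℝ, u = -(d / 4) + w := ⟨_, rfl⟩
  have hgoal : 1 - d / 4 + 5 / 32 * d ^ 2 + |d| ^ 3 = 1 + u := by
    rw [hu, hw, hd3]; ring
  rw [hgoal]
  have hua : |u| ≤ |d| / 2 := by
    rw [abs_le, hu]
    constructor <;> linarith
  have hu1 : 0 < 1 + u := by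
    have := (abs_le.1 hua).1
    linarith
  have hu3 : -(|d| ^ 3 / 2) ≤ 4 * u ^ 3 := by
    have h1 : |u| ^ 3 ≤ (|d| / 2) ^ 3 := pow_le_pow_left₀ (abs_nonneg u) hua 3
    have h2 : |u ^ 3| = |u| ^ 3 := abs_pow u 3
    have h3 := neg_abs_le (u ^ 3)
    rw [h2] at h3
    nlinarith
  have hu2 : |d| ^ 2 / 16 - |d| ^ 3 / 4 ≤ u ^ 2 := by
    have h1 : u ^ 2 = |d| ^ 2 / 16 - d * w / 2 + w ^ 2 := by rw [hu, ← hd3]; ring
    have h2 : d * w ≤ |d| * (|d| ^ 2 / 2) :=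
      (mul_le_mul_of_nonneg_right hle hw0).trans (mul_le_mul_of_nonneg_left hw1 ha0)
    nlinarith [sq_nonneg w]
  have h4 : 1 - d + |d| ^ 2 + 2 * |d| ^ 3 ≤ (1 + u) ^ 4 := by
    have h5 : (1 + u) ^ 4 = 1 + 4 * u + 6 * u ^ 2 + 4 * u ^ 3 + u ^ 4 := by ring
    have h6 : 4 * u = -d + 5 / 8 * |d| ^ 2 + 4 * |d| ^ 3 := by rw [hu, hw]; ring
    have h7 : 0 ≤ u ^ 4 := by positivity
    rw [h5, h6]
    linarith
  have h8 : 1 ≤ (1 + d) * (1 + u) ^ 4 := by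
    have h9 : (1 + d) * (1 - d + |d| ^ 2 + 2 * |d| ^ 3) ≤ (1 + d) * (1 + u) ^ 4 :=
      mul_le_mul_of_nonneg_left h4 hpos.le
    refine le_trans ?_ h9
    have h10 : 0 ≤ |d| ^ 3 := by positivity
    have h11 : -(|d| ^ 3) ≤ d * |d| ^ 2 := by
      have := mul_le_mul_of_nonneg_right hge (sq_nonneg |d|)
      nlinarith
    have h12 : (1 + d) * (1 - d + |d| ^ 2 + 2 * |d| ^ 3) =
        1 + d * |d| ^ 2 + 2 * |d| ^ 3 * (1 + d) + (|d| ^ 2 - d ^ 2) := by ring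
    rw [h12, hd3, sub_self]
    nlinarith
  have h13 : ((1 + d)⁻¹) ≤ (1 + u) ^ 4 := by
    rw [inv_le_iff_one_le_mul₀ hpos]
    linarith
  have h14 : (1 + d) ^ (-(1 / 4) : ℝ) = ((1 + d)⁻¹) ^ ((1 / 4 : ℝ)) := by
    rw [Real.rpow_neg hpos.le, Real.inv_rpow hpos.le]
  rw [h14]
  calc ((1 + d)⁻¹) ^ ((1 / 4 : ℝ)) ≤ ((1 + u) ^ 4) ^ (1 / 4 : ℝ) :=
        Real.rpow_le_rpow (inv_nonneg.2 hpos.le) h13 (by norm_num)
    _ = 1 + u := by
        rw [← Real.rpow_natCast, ← Real.rpow_mul hu1.le]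
        norm_num


/-! ### The trigonometric integral -/

theorem trig_integral (k0 k1 k2 α β : ℝ) :
    ∫ θ in (0 : ℝ)..(2 * Real.pi), (k0 + k1 * (α * Real.sin (2 * θ) + β * Real.cos (2 * θ)) +
      k2 * (α * Real.sin (2 * θ) + β * Real.cos (2 * θ)) ^ 2) =
    2 * Real.pi * k0 + k2 * Real.pi * (α ^ 2 + β ^ 2) := by
  have hd : ∀ θ ∈ uIcc (0 : ℝ) (2 * Real.pi), HasDerivAt (fun θ : ℝ => k0 * θ +
      k1 * (-(α * Real.cos (2 * θ)) / 2 + β * Real.sin (2 * θ) / 2) +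
      k2 * ((α ^ 2 + β ^ 2) * θ / 2 + (β ^ 2 - α ^ 2) * (Real.sin (2 * θ) * Real.cos (2 * θ)) / 4 -
        α * β * (Real.cos (2 * θ)) ^ 2 / 2))
      (k0 + k1 * (α * Real.sin (2 * θ) + β * Real.cos (2 * θ)) +
      k2 * (α * Real.sin (2 * θ) + β * Real.cos (2 * θ)) ^ 2) θ := by
    intro θ _
    have hs : HasDerivAt (fun θ : ℝ => Real.sin (2 * θ)) (Real.cos (2 * θ) * 2) θ := by
      have h1 : HasDerivAt (fun θ : ℝ => 2 * θ) 2 θ := by
        simpa using (hasDerivAt_id θ).const_mul (2 : ℝ)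
      exact (Real.hasDerivAt_sin (2 * θ)).comp θ h1
    have hc : HasDerivAt (fun θ : ℝ => Real.cos (2 * θ)) (-Real.sin (2 * θ) * 2) θ := by
      have h1 : HasDerivAt (fun θ : ℝ => 2 * θ) 2 θ := by
        simpa using (hasDerivAt_id θ).const_mul (2 : ℝ)
      exact (Real.hasDerivAt_cos (2 * θ)).comp θ h1
    have hid := hasDerivAt_id θ
    have h := ((hid.const_mul k0).add
      ((((hc.const_mul α).neg.div_const 2).add ((hs.const_mul β).div_const 2)).const_mul k1)).add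
      (((((hid.const_mul (α ^ 2 + β ^ 2)).div_const 2).add
        (((hs.mul hc).const_mul (β ^ 2 - α ^ 2)).div_const 4)).sub
        (((hc.pow 2).const_mul (α * β)).div_const 2)).const_mul k2)
    refine HasDerivAt.congr_deriv (h.congr_of_eventuallyEq (Filter.Eventually.of_forall
      fun θ => ?_)) ?_
    · simp
    · have hcs := Real.sin_sq_add_cos_sq (2 * θ)
      generalize Real.sin (2 * θ) = s at *
      generalize Real.cos (2 * θ) = c at *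
      simp only [Nat.cast_ofNat, Nat.reduceSub, pow_one]
      linear_combination (-(k2 * (α ^ 2 + β ^ 2) / 2)) * hcs
  rw [intervalIntegral.integral_eq_sub_of_hasDerivAt hd]
  · have e1 : Real.sin (2 * (2 * Real.pi)) = 0 := by
      rw [show 2 * (2 * Real.pi) = (4 : ℕ) * Real.pi by push_cast; ring]
      exact Real.sin_nat_mul_pi 4
    have e2 : Real.cos (2 * (2 * Real.pi)) = 1 := by
      rw [show 2 * (2 * Real.pi) = (2 : ℕ) * (2 * Real.pi) by push_cast; ring]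
      exact Real.cos_nat_mul_two_pi 2
    simp only [e1, e2, mul_zero, Real.sin_zero, Real.cos_zero]
    ring
  · apply Continuous.intervalIntegrable
    fun_prop

theorem st_DRIFT : ST_DRIFT := by
  refine ⟨Real.log (501 / 500) / 2, 1 / 100000000, ?_, by norm_num, by norm_num, ?_⟩
  · have := Real.log_pos (show (1 : ℝ) < 501 / 500 by norm_num)
    linarith
  intro g γ hγ
  obtain ⟨r, hr⟩ : ∃ r : ℝ, r = Real.log (501 / 500) / 2 := ⟨_, rfl⟩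
  rw [← hr]
  have hexp : Real.exp (2 * r) = 501 / 500 := by
    rw [hr, mul_div_cancel₀ _ (two_ne_zero), Real.exp_log (by norm_num)]
  have hT := qn_conj_pos g γ hγ
  obtain ⟨M, hM⟩ : ∃ M : G, M = g * γ * g⁻¹ := ⟨_, rfl⟩
  have hconj : ∀ θ : ℝ, (dia r * rot θ * g) * γ * (dia r * rot θ * g)⁻¹ =
      (dia r * rot θ) * M * (dia r * rot θ)⁻¹ := by
    intro θ
    rw [hM]
    group
  rw [← hM] at hT ⊢
  simp only [hconj, tn_rpow]
  -- normalisation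
  obtain ⟨T, hTdef⟩ : ∃ T : ℝ, T = qn M := ⟨_, rfl⟩
  rw [← hTdef] at hT ⊢
  obtain ⟨R, hRdef⟩ : ∃ R : ℝ, R = Real.sqrt T := ⟨_, rfl⟩
  have hR0 : 0 < R := by rw [hRdef]; exact Real.sqrt_pos.2 hT
  have hR2 : R ^ 2 = T := by rw [hRdef]; exact Real.sq_sqrt hT.le
  obtain ⟨α, hα⟩ : ∃ α : ℝ, α = ((M.1 0 0 - M.1 1 1) / 2) / R := ⟨_, rfl⟩
  obtain ⟨β, hβ⟩ : ∃ β : ℝ, β = ((M.1 0 1 + M.1 1 0) / 2) / R := ⟨_, rfl⟩
  obtain ⟨ζ, hζ⟩ : ∃ ζ : ℝ, ζ = ((M.1 0 1 - M.1 1 0) / 2) / R := ⟨_, rfl⟩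
  have hα' : (M.1 0 0 - M.1 1 1) / 2 = R * α := by rw [hα]; field_simp
  have hβ' : (M.1 0 1 + M.1 1 0) / 2 = R * β := by rw [hβ]; field_simp
  have hζ' : (M.1 0 1 - M.1 1 0) / 2 = R * ζ := by rw [hζ]; field_simp
  have hsum : α ^ 2 + β ^ 2 + ζ ^ 2 = 1 := by
    have h1 : T = (R * α) ^ 2 + (R * β) ^ 2 + (R * ζ) ^ 2 := by
      rw [hTdef, ← hα', ← hβ', ← hζ']
      unfold qn
      ring
    rw [← hR2] at h1
    have h2 : R ^ 2 * (α ^ 2 + β ^ 2 + ζ ^ 2) = R ^ 2 * 1 := by linarith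
    exact mul_left_cancel₀ (pow_ne_zero 2 hR0.ne') h2
  -- pointwise formula
  have hform : ∀ θ : ℝ, qn ((dia r * rot θ) * M * (dia r * rot θ)⁻¹) = T * (1 +
      (1 / 501000 * ((α * Real.sin (2 * θ) + β * Real.cos (2 * θ)) ^ 2 + ζ ^ 2) +
        2 * (1001 / 501000) * ζ * (α * Real.sin (2 * θ) + β * Real.cos (2 * θ)))) := by
    intro θ
    rw [conj_entries, hα', hβ', hζ', hexp, ← hR2]
    have hcs := Real.sin_sq_add_cos_sq (2 * θ)
    generalize Real.sin (2 * θ) = s at *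
    generalize Real.cos (2 * θ) = c at *
    have h1 : (R * α * c - R * β * s) ^ 2 =
        R ^ 2 * (1 - ζ ^ 2 - (α * s + β * c) ^ 2) := by
      linear_combination (R ^ 2 * (α ^ 2 + β ^ 2)) * hcs + R ^ 2 * hsum
    rw [h1]
    norm_num
    ring
  have hpbound : ∀ θ : ℝ, (α * Real.sin (2 * θ) + β * Real.cos (2 * θ)) ^ 2 + ζ ^ 2 ≤ 1 := by
    intro θ
    have hcs := Real.sin_sq_add_cos_sq (2 * θ)
    generalize Real.sin (2 * θ) = s at *
    generalize Real.cos (2 * θ) = c at *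
    have h1 : (α * s + β * c) ^ 2 + (α * c - β * s) ^ 2 = α ^ 2 + β ^ 2 := by
      linear_combination (α ^ 2 + β ^ 2) * hcs
    nlinarith [sq_nonneg (α * c - β * s)]
  have hpw : ∀ θ : ℝ, (qn ((dia r * rot θ) * M * (dia r * rot θ)⁻¹)) ^ (-(1 / 4) : ℝ) ≤
      T ^ (-(1 / 4) : ℝ) * ((1 + 1 / 100000000 - 1 / 501000 * ζ ^ 2 / 4) +
        (-(1001 / 501000 * ζ / 2)) * (α * Real.sin (2 * θ) + β * Real.cos (2 * θ)) +
        (-(1 / 501000 / 4) + 5 / 8 * ζ ^ 2 * (1001 / 501000) ^ 2) *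
          (α * Real.sin (2 * θ) + β * Real.cos (2 * θ)) ^ 2) := by
    intro θ
    rw [hform]
    have hb := hpbound θ
    generalize α * Real.sin (2 * θ) + β * Real.cos (2 * θ) = p at *
    obtain ⟨d, hd⟩ : ∃ d : ℝ, d = 1 / 501000 * (p ^ 2 + ζ ^ 2) + 2 * (1001 / 501000) * ζ * p :=
      ⟨_, rfl⟩
    rw [← hd]
    have hζp : |ζ * p| ≤ 1 / 2 := by
      rw [abs_le]
      constructor <;> nlinarith [sq_nonneg (ζ - p), sq_nonneg (ζ + p)]
    obtain ⟨hz1, hz2⟩ := abs_le.1 hζp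
    have hd1 : |d| ≤ 1002 / 501000 := by
      rw [abs_le, hd]
      constructor <;> nlinarith [sq_nonneg p, sq_nonneg ζ]
    have hpos : 0 < 1 + d := by
      have := (abs_le.1 hd1).1
      linarith
    rw [Real.mul_rpow hT.le hpos.le]
    refine mul_le_mul_of_nonneg_left ?_ (Real.rpow_nonneg hT.le _)
    refine (scalar_ineq (hd1.trans (by norm_num))).trans ?_
    have h3 : |d| ^ 3 ≤ (1002 / 501000) ^ 3 := pow_le_pow_left₀ (abs_nonneg d) hd1 3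
    have h4 : d ^ 2 ≤ (1 / 501000) ^ 2 + 2 * (1 / 501000) * (1001 / 501000) +
        4 * (1001 / 501000) ^ 2 * (ζ ^ 2 * p ^ 2) := by
      have hq0 : 0 ≤ p ^ 2 + ζ ^ 2 := by positivity
      obtain ⟨q, hq⟩ : ∃ q : ℝ, q = p ^ 2 + ζ ^ 2 := ⟨_, rfl⟩
      rw [← hq] at hq0 hb
      have e1 : d ^ 2 = (1 / 501000) ^ 2 * q ^ 2 + 4 * (1 / 501000) * (1001 / 501000) *
          (q * (ζ * p)) + 4 * (1001 / 501000) ^ 2 * (ζ ^ 2 * p ^ 2) := by
        rw [hd, ← hq]; ring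
      have e2 : q ^ 2 ≤ 1 := by nlinarith
      have e3 : q * (ζ * p) ≤ 1 / 2 := by
        rcases le_or_gt 0 (ζ * p) with h | h
        · nlinarith
        · nlinarith
      rw [e1]
      nlinarith
    have h5 : 1 - d / 4 = 1 - 1 / 501000 * (p ^ 2 + ζ ^ 2) / 4 - 1001 / 501000 * ζ * p / 2 := by
      rw [hd]; ring
    rw [h5]
    have h6 : (5 : ℝ) / 32 * ((1 / 501000) ^ 2 + 2 * (1 / 501000) * (1001 / 501000)) +
        (1002 / 501000) ^ 3 ≤ 1 / 100000000 := by norm_num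
    nlinarith
  have hcontq : Continuous fun θ : ℝ => qn ((dia r * rot θ) * M * (dia r * rot θ)⁻¹) := by
    simp only [hform]
    fun_prop
  have hposq : ∀ θ : ℝ, 0 < qn ((dia r * rot θ) * M * (dia r * rot θ)⁻¹) := by
    intro θ
    refine lt_of_le_of_ne (qn_nonneg _) fun h0 => ?_
    have h1 : 0 < qn ((dia r * rot θ * g) * γ * (dia r * rot θ * g)⁻¹) := qn_conj_pos _ _ hγ
    rw [hconj, ← h0] at h1
    exact lt_irrefl _ h1
  have hcont : Continuous fun θ : ℝ =>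
      (qn ((dia r * rot θ) * M * (dia r * rot θ)⁻¹)) ^ (-(1 / 4) : ℝ) :=
    hcontq.rpow_const fun θ => Or.inl (hposq θ).ne'
  have hint : ∫ θ in (0 : ℝ)..(2 * Real.pi),
      (qn ((dia r * rot θ) * M * (dia r * rot θ)⁻¹)) ^ (-(1 / 4) : ℝ) ≤
      ∫ θ in (0 : ℝ)..(2 * Real.pi), T ^ (-(1 / 4) : ℝ) *
        ((1 + 1 / 100000000 - 1 / 501000 * ζ ^ 2 / 4) +
        (-(1001 / 501000 * ζ / 2)) * (α * Real.sin (2 * θ) + β * Real.cos (2 * θ)) +
        (-(1 / 501000 / 4) + 5 / 8 * ζ ^ 2 * (1001 / 501000) ^ 2) *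
          (α * Real.sin (2 * θ) + β * Real.cos (2 * θ)) ^ 2) := by
    refine intervalIntegral.integral_mono (by positivity) (hcont.intervalIntegrable _ _) ?_ hpw
    apply Continuous.intervalIntegrable
    fun_prop
  rw [intervalIntegral.integral_const_mul, trig_integral] at hint
  have hTr : 0 < T ^ (-(1 / 4) : ℝ) := Real.rpow_pos_of_pos hT _
  have hpi := Real.pi_pos
  have hαβ : α ^ 2 + β ^ 2 = 1 - ζ ^ 2 := by linarith
  rw [hαβ] at hint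
  calc 1 / (2 * Real.pi) * ∫ θ in (0 : ℝ)..(2 * Real.pi),
        (qn ((dia r * rot θ) * M * (dia r * rot θ)⁻¹)) ^ (-(1 / 4) : ℝ)
      ≤ 1 / (2 * Real.pi) * (T ^ (-(1 / 4) : ℝ) *
        (2 * Real.pi * (1 + 1 / 100000000 - 1 / 501000 * ζ ^ 2 / 4) +
        (-(1 / 501000 / 4) + 5 / 8 * ζ ^ 2 * (1001 / 501000) ^ 2) * Real.pi * (1 - ζ ^ 2))) :=
        mul_le_mul_of_nonneg_left hint (by positivity)
    _ = ((1 + 1 / 100000000 - 1 / 501000 * ζ ^ 2 / 4) +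
        (-(1 / 501000 / 4) + 5 / 8 * ζ ^ 2 * (1001 / 501000) ^ 2) * (1 - ζ ^ 2) / 2) *
          T ^ (-(1 / 4) : ℝ) := by
        field_simp
    _ ≤ (1 - 1 / 100000000) * T ^ (-(1 / 4) : ℝ) := by
        refine mul_le_mul_of_nonneg_right ?_ hTr.le
        generalize ζ ^ 2 = a
        nlinarith [sq_nonneg (a - 2 / 5)]

end Pool.Agent.Helper55.Dil
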