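import Pool.Agent.Helper73.Dil.Pure

/-!
# Module LIOU: Liouville property of lattices
-/

namespace Pool.Agent.Helper55.Dil

open Pool.Agent.Helper73.Dil MeasureTheory Set Topology Filter

open scoped Pointwise Interval

theorem hs_mul (g h : G) : hs (g * h) ≤ hs g * hs h := by
  unfold hs
  rw [← Real.sqrt_mul (by positivity)]
  refine Real.sqrt_le_sqrt ?_
  rw [Matrix.SpecialLinearGroup.coe_mul]
  simp only [Matrix.mul_apply, Fin.sum_univ_two]
  generalize g.1 0 0 = a
  generalize g.1 0 1 = b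
  generalize g.1 1 0 = c
  generalize g.1 1 1 = d
  generalize h.1 0 0 = x
  generalize h.1 0 1 = y
  generalize h.1 1 0 = z
  generalize h.1 1 1 = w
  nlinarith [sq_nonneg (a * z - b * x), sq_nonneg (a * w - b * y), sq_nonneg (c * z - d * x),
    sq_nonneg (c * w - d * y)]

theorem cont_entry (i j : Fin 2) : Continuous fun g : G => g.1 i j :=
  (continuous_apply_apply i j).comp continuous_subtype_val

theorem cont_hs : Continuous hs := by
  unfold hs
  have h0 := cont_entry 0 0
  have h1 := cont_entry 0 1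
  have h2 := cont_entry 1 0
  have h3 := cont_entry 1 1
  exact (((h0.pow 2).add (h1.pow 2)).add (h2.pow 2) |>.add (h3.pow 2)).sqrt

theorem hs_nonneg (g : G) : 0 ≤ hs g := Real.sqrt_nonneg _

theorem hs_rot (θ : ℝ) : hs (rot θ) ≤ 2 := by
  unfold hs rot
  simp only [Matrix.of_apply, Matrix.cons_val', Matrix.cons_val_zero, Matrix.cons_val_one,
    Matrix.cons_val_fin_one]
  rw [show (2 : ℝ) = Real.sqrt 4 by
    rw [show (4 : ℝ) = 2 ^ 2 by norm_num]; exact (Real.sqrt_sq (by norm_num)).symm]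
  refine Real.sqrt_le_sqrt ?_
  nlinarith [Real.sin_sq_add_cos_sq θ]

theorem cont_rot : Continuous rot := by
  refine Continuous.subtype_mk ?_ _
  refine continuous_matrix fun i j => ?_
  fin_cases i <;> fin_cases j <;> simp <;> fun_prop

theorem sct_mat : SecondCountableTopology (Matrix (Fin 2) (Fin 2) ℝ) :=
  inferInstanceAs (SecondCountableTopology (Fin 2 → Fin 2 → ℝ))

instance instSCG : SecondCountableTopology G :=
  have := sct_mat
  TopologicalSpace.Subtype.secondCountableTopology _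

example : MeasurableMul₂ G := inferInstance

theorem countable_of_discrete (Γ : Subgroup G) (h : DiscreteTopology Γ) : Countable Γ := by
  have : SecondCountableTopology Γ := TopologicalSpace.Subtype.secondCountableTopology _
  exact TopologicalSpace.separableSpace_iff_countable.1 inferInstance

/-- the difference function -/
def Dh (F : G → ℝ) (h g : G) : ℝ := F (h * g) - F g

section

variable {Γ : Subgroup G} {μ : Measure G} {D : Set G} {F : G → ℝ}

theorem Dh_inv (hF : ∀ γ ∈ Γ, ∃ c, ∀ g, F (g * γ) = F g + c) (h g γ : G) (hγ : γ ∈ Γ) :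
    Dh F h (g * γ) = Dh F h g := by
  obtain ⟨c, hc⟩ := hF γ hγ
  unfold Dh
  rw [← mul_assoc, hc, hc]
  ring

theorem Dh_bound {C : ℝ} (hC : ∀ g, |F g| ≤ C * hs g) (hC0 : 0 ≤ C) (h g : G) :
    |Dh F h g| ≤ C * (1 + hs h) * hs g := by
  unfold Dh
  have h1 := hC (h * g)
  have h2 := hC g
  have h3 := hs_mul h g
  calc |F (h * g) - F g| ≤ |F (h * g)| + |F g| := abs_sub _ _
    _ ≤ C * hs (h * g) + C * hs g := add_le_add h1 h2
    _ ≤ C * (hs h * hs g) + C * hs g := by
        have := mul_le_mul_of_nonneg_left h3 hC0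
        linarith
    _ = _ := by ring

/-- the minimal norm in the coset -/
noncomputable def mm (Γ : Subgroup G) (g : G) : ENNReal := ⨅ γ : Γ, ENNReal.ofReal (hs (g * γ.1))

theorem Dh_le_mm (hF : ∀ γ ∈ Γ, ∃ c, ∀ g, F (g * γ) = F g + c) {C : ℝ}
    (hC : ∀ g, |F g| ≤ C * hs g) (hC0 : 0 ≤ C) (h g : G) :
    ENNReal.ofReal |Dh F h g| ≤ ENNReal.ofReal (C * (1 + hs h)) * mm Γ g := by
  unfold mm
  rw [ENNReal.mul_iInf' (fun h => absurd h ENNReal.ofReal_ne_top) (fun _ => ⟨1⟩)]
  refine le_iInf fun γ => ?_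
  rw [← ENNReal.ofReal_mul (mul_nonneg hC0 (by have := hs_nonneg h; linarith))]
  refine ENNReal.ofReal_le_ofReal ?_
  rw [← Dh_inv hF h g γ.1 γ.2]
  exact Dh_bound hC hC0 h (g * γ.1)

theorem cont_Dh (hFc : Continuous F) (h : G) : Continuous (Dh F h) := by
  unfold Dh
  exact (hFc.comp (continuous_const.mul continuous_id)).sub hFc

theorem meas_mm (Γ : Subgroup G) (hΓ : Countable Γ) : Measurable (mm Γ) := by
  unfold mm
  refine Measurable.iInf fun γ => ?_
  exact ENNReal.measurable_ofReal.comp (cont_hs.comp (continuous_id.mul continuous_const)).measurable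

theorem int_Dh (hFc : Continuous F) (hF : ∀ γ ∈ Γ, ∃ c, ∀ g, F (g * γ) = F g + c) {C : ℝ}
    (hC : ∀ g, |F g| ≤ C * hs g) (hC0 : 0 ≤ C) (hm : ∫⁻ g in D, mm Γ g ∂μ < ⊤) (h : G) :
    IntegrableOn (Dh F h) D μ := by
  refine ⟨(cont_Dh hFc h).measurable.aestronglyMeasurable, ?_⟩
  rw [hasFiniteIntegral_iff_norm]
  calc ∫⁻ g in D, ENNReal.ofReal ‖Dh F h g‖ ∂μ
      ≤ ∫⁻ g in D, ENNReal.ofReal (C * (1 + hs h)) * mm Γ g ∂μ := by
        refine lintegral_mono fun g => ?_
        rw [Real.norm_eq_abs]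
        exact Dh_le_mm hF hC hC0 h g
    _ = ENNReal.ofReal (C * (1 + hs h)) * ∫⁻ g in D, mm Γ g ∂μ :=
        lintegral_const_mul' _ _ ENNReal.ofReal_ne_top
    _ < ⊤ := ENNReal.mul_lt_top ENNReal.ofReal_lt_top hm

theorem I_add (hΓ : Countable Γ) (hμ : μ.IsHaarMeasure) (hr : μ.IsMulRightInvariant)
    (hD : IsFundamentalDomain Γ.op D μ) (hFc : Continuous F)
    (hF : ∀ γ ∈ Γ, ∃ c, ∀ g, F (g * γ) = F g + c) {C : ℝ}
    (hC : ∀ g, |F g| ≤ C * hs g) (hC0 : 0 ≤ C) (hm : ∫⁻ g in D, mm Γ g ∂μ < ⊤) (h h' : G) :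
    ∫ g in D, Dh F (h * h') g ∂μ = ∫ g in D, Dh F h g ∂μ + ∫ g in D, Dh F h' g ∂μ := by
  have hcΓ : Countable Γ.op := by
    have := hΓ
    exact Γ.equivOp.symm.countable_iff.2 hΓ
  have e1 : ∀ g, Dh F (h * h') g = Dh F h (h' * g) + Dh F h' g := by
    intro g
    unfold Dh
    rw [mul_assoc]
    ring
  have hinv : ∀ (γ : Γ.op) (x : G), Dh F h (γ • x) = Dh F h x := by
    rintro ⟨γ, hγ⟩ x
    have : ((⟨γ, hγ⟩ : Γ.op) • x) = x * γ.unop := rfl
    rw [this]
    exact Dh_inv hF h x _ hγ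
  have hD' : IsFundamentalDomain Γ.op (h' • D) μ := hD.smul_of_comm h'
  have hpres : MeasurePreserving (fun x => h' • x) μ μ := measurePreserving_smul h' μ
  have e2 : ∫ g in D, Dh F h (h' * g) ∂μ = ∫ g in h' • D, Dh F h g ∂μ := by
    have := hpres.setIntegral_image_emb (measurableEmbedding_const_smul h') (Dh F h) D
    rw [Set.image_smul] at this
    rw [this]
    rfl
  have i2 : IntegrableOn (fun g => Dh F h (h' * g)) D μ := by
    have h1 : IntegrableOn (fun g => Dh F (h * h') g - Dh F h' g) D μ :=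
      (int_Dh hFc hF hC hC0 hm (h * h')).sub (int_Dh hFc hF hC hC0 hm h')
    refine h1.congr_fun_ae (Eventually.of_forall fun g => ?_)
    simp only [e1]
    ring
  simp only [e1]
  rw [integral_add i2 (int_Dh hFc hF hC hC0 hm h'), e2, hD'.setIntegral_eq hD hinv]

end

theorem st_LIOU (hL : ST_LAT) (hP : ST_PERF) (hU : ST_UNIMOD) : ST_LIOU := by
  rintro Γ ⟨hdisc, μ, hμ, D, hD, hfin⟩ F hFc hrot hF ⟨C0, hC0⟩ hsub r g0 hr0
  have hr : μ.IsMulRightInvariant := hU μ hμ
  have hΓ : Countable Γ := countable_of_discrete Γ hdisc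
  have hcΓ : Countable Γ.op := Γ.equivOp.symm.countable_iff.2 hΓ
  have hm : ∫⁻ g in D, mm Γ g ∂μ < ⊤ := hL Γ μ D hdisc hμ hr hD hfin
  obtain ⟨C, hC, hCnn⟩ : ∃ C, (∀ g, |F g| ≤ C * hs g) ∧ 0 ≤ C :=
    ⟨|C0|, fun g => (hC0 g).trans (mul_le_mul_of_nonneg_right (le_abs_self C0) (hs_nonneg g)),
      abs_nonneg _⟩
  have hI : ∀ h, ∫ g in D, Dh F h g ∂μ = 0 :=
    hP _ fun h h' => I_add hΓ hμ hr hD hFc hF hC hCnn hm h h'
  have hfinD : IsFiniteMeasure (μ.restrict D) := ⟨by rwa [Measure.restrict_apply_univ]⟩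
  have hpi := Real.pi_pos
  -- the deviation function
  obtain ⟨A, hA⟩ : ∃ A : G → ℝ, A = fun g => ∫ θ in (0 : ℝ)..(2 * Real.pi),
      Dh F (dia r * rot θ) g := ⟨_, rfl⟩
  have hcontJ : Continuous (Function.uncurry fun (g : G) (θ : ℝ) => Dh F (dia r * rot θ) g) := by
    have h1 : Continuous fun q : G × ℝ => dia r * rot q.2 * q.1 :=
      (continuous_const.mul (cont_rot.comp continuous_snd)).mul continuous_fst
    exact (hFc.comp h1).sub (hFc.comp continuous_fst)
  have hAc : Continuous A := by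
    rw [hA]
    exact intervalIntegral.continuous_parametric_intervalIntegral_of_continuous' hcontJ _ _
  have hAint : ∀ g, IntervalIntegrable (fun θ => F (dia r * rot θ * g)) volume 0
      (2 * Real.pi) := by
    intro g
    apply Continuous.intervalIntegrable
    exact hFc.comp ((continuous_const.mul cont_rot).mul continuous_const)
  have hAeq : ∀ g, A g = (∫ θ in (0 : ℝ)..(2 * Real.pi), F (dia r * rot θ * g)) -
      2 * Real.pi * F g := by
    intro g
    rw [hA]
    unfold Dh
    simp only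
    rw [intervalIntegral.integral_sub (hAint g) intervalIntegrable_const,
      intervalIntegral.integral_const]
    simp
  have hA0 : ∀ g, 0 ≤ A g := by
    intro g
    have h1 := hsub r g hr0
    rw [hAeq]
    have h2 : 2 * Real.pi * F g ≤ 2 * Real.pi * ((1 / (2 * Real.pi)) *
        ∫ θ in (0 : ℝ)..(2 * Real.pi), F (dia r * rot θ * g)) :=
      mul_le_mul_of_nonneg_left h1 (by positivity)
    have h3 : 2 * Real.pi * ((1 / (2 * Real.pi)) *
        ∫ θ in (0 : ℝ)..(2 * Real.pi), F (dia r * rot θ * g)) =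
        ∫ θ in (0 : ℝ)..(2 * Real.pi), F (dia r * rot θ * g) := by
      field_simp
    linarith
  -- Fubini
  have hhs : ∀ θ, hs (dia r * rot θ) ≤ hs (dia r) * 2 := fun θ =>
    (hs_mul _ _).trans (mul_le_mul_of_nonneg_left (hs_rot θ) (hs_nonneg _))
  have hprod : Integrable (Function.uncurry fun (g : G) (θ : ℝ) => Dh F (dia r * rot θ) g)
      ((μ.restrict D).prod (volume.restrict (Ι (0 : ℝ) (2 * Real.pi)))) := by
    have hvol : IsFiniteMeasure (volume.restrict (Ι (0 : ℝ) (2 * Real.pi))) := by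
      rw [uIoc_of_le (by positivity)]
      infer_instance
    refine ⟨hcontJ.measurable.aestronglyMeasurable, ?_⟩
    rw [hasFiniteIntegral_iff_norm]
    calc ∫⁻ q, ENNReal.ofReal ‖Function.uncurry (fun (g : G) (θ : ℝ) =>
            Dh F (dia r * rot θ) g) q‖
            ∂((μ.restrict D).prod (volume.restrict (Ι (0 : ℝ) (2 * Real.pi))))
        ≤ ∫⁻ q, ENNReal.ofReal (C * (1 + hs (dia r) * 2)) * mm Γ q.1
            ∂((μ.restrict D).prod (volume.restrict (Ι (0 : ℝ) (2 * Real.pi)))) := by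
          refine lintegral_mono fun q => ?_
          rw [Real.norm_eq_abs]
          refine (Dh_le_mm hF hC hCnn (dia r * rot q.2) q.1).trans ?_
          refine mul_le_mul_left ?_ _
          refine ENNReal.ofReal_le_ofReal ?_
          have := hhs q.2
          exact mul_le_mul_of_nonneg_left (by linarith) hCnn
      _ = ∫⁻ g, ∫⁻ _θ, ENNReal.ofReal (C * (1 + hs (dia r) * 2)) * mm Γ g
            ∂(volume.restrict (Ι (0 : ℝ) (2 * Real.pi))) ∂(μ.restrict D) := by
          rw [lintegral_prod]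
          exact (((meas_mm Γ hΓ).comp measurable_fst).const_mul _).aemeasurable
      _ = (ENNReal.ofReal (C * (1 + hs (dia r) * 2)) * ∫⁻ g in D, mm Γ g ∂μ) *
            (volume.restrict (Ι (0 : ℝ) (2 * Real.pi))) univ := by
          simp only [lintegral_const]
          rw [lintegral_mul_const' _ _ (measure_ne_top _ _),
            lintegral_const_mul' _ _ ENNReal.ofReal_ne_top]
      _ < ⊤ := ENNReal.mul_lt_top (ENNReal.mul_lt_top ENNReal.ofReal_lt_top hm)
            (measure_lt_top _ _)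
  have hIA : ∫ g in D, A g ∂μ = 0 := by
    have h1 := intervalIntegral_integral_swap (μ := μ.restrict D)
      (f := fun (θ : ℝ) (g : G) => Dh F (dia r * rot θ) g) (a := 0) (b := 2 * Real.pi) ?_
    · rw [hA]
      simp only
      rw [← h1]
      simp only [hI]
      simp
    · exact hprod.swap
  have hAi : IntegrableOn A D μ := by
    have h1 := hprod.integral_prod_left
    rw [hA]
    refine h1.congr (Eventually.of_forall fun g => ?_)
    simp only [Function.uncurry]
    rw [intervalIntegral.integral_of_le (by positivity), uIoc_of_le (by positivity)]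
  have hAz : A =ᵐ[μ.restrict D] 0 := by
    rw [← integral_eq_zero_iff_of_nonneg (fun g => hA0 g) hAi]
    exact hIA
  have hAinv : ∀ g, ∀ γ ∈ Γ, A (g * γ) = A g := by
    intro g γ hγ
    rw [hA]
    simp only
    refine intervalIntegral.integral_congr fun θ _ => ?_
    exact Dh_inv hF _ g γ hγ
  have hzero : μ {g | A g ≠ 0} = 0 := by
    refine hD.measure_zero_of_invariant _ ?_ ?_
    · rintro ⟨γ, hγ⟩
      ext x
      rw [Set.mem_smul_set_iff_inv_smul_mem]
      have : ((⟨γ, hγ⟩ : Γ.op)⁻¹ • x) = x * (γ.unop)⁻¹ := rfl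
      rw [this, mem_ofPred_eq, mem_ofPred_eq, hAinv x _ (Γ.inv_mem hγ)]
    · rw [Filter.EventuallyEq, ae_iff] at hAz
      have h1 : {g | A g ≠ 0} ∩ D = {g | ¬ A g = (0 : G → ℝ) g} ∩ D := rfl
      rw [h1, ← Measure.restrict_apply₀']
      · exact hAz
      · exact hD.nullMeasurableSet
  have hAll : ∀ g, A g = 0 := by
    have hopen : IsOpen {g | A g ≠ 0} := isOpen_ne_fun hAc continuous_const
    have hempty := hopen.measure_eq_zero_iff μ |>.1 hzero
    intro g
    by_contra hne
    have : g ∈ ({g | A g ≠ 0} : Set G) := hne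
    rw [hempty] at this
    exact this
  have hg := hAeq g0
  rw [hAll g0] at hg
  field_simp
  linarith

end Pool.Agent.Helper55.Dil
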