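import Pool.Agent.Helper73.Dil.Pure2
import Pool.Agent.Helper55.Dil.LIOU

/-!
# Module JENSEN: the log-area argument
-/

namespace Pool.Agent.Helper55.Dil

open Pool.Agent.Helper73.Dil MeasureTheory Set Topology Filter

open scoped Interval

set_option linter.unusedSectionVars false

universe u

theorem hs_ge_one (g : G) : 1 ≤ hs g := by
  have h := g.2
  rw [Matrix.det_fin_two] at h
  unfold hs
  rw [Real.one_le_sqrt]
  nlinarith [sq_nonneg (g.1 0 0 - g.1 1 1), sq_nonneg (g.1 0 1 + g.1 1 0)]

/-- the hypotheses on the family `f` -/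
structure JD {X : Type u} [TopologicalSpace X] (f : G → X → ℝ) (C : ℝ) (p : X) : Prop where
  cont : ∀ g, Continuous (f g)
  cmv : ∀ x, CMV fun g => f g x - f g p
  rot : ∀ θ g x y, f (rot θ * g) x - f (rot θ * g) y = f g x - f g y
  bd : ∀ g x y, |f g x - f g y| ≤ C * hs g

section

variable {X : Type u} [TopologicalSpace X] [CompactSpace X] [MeasurableSpace X] [BorelSpace X]
  {A0 : Measure X} [IsFiniteMeasure A0] [A0.IsOpenPosMeasure] {f : G → X → ℝ} {C : ℝ} {p : X}

/-- the weight -/
noncomputable def ww (f : G → X → ℝ) (p : X) (g : G) (x : X) : ℝ :=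
  Real.exp (-2 * (f g x - f g p))

/-- the area -/
noncomputable def ZZ (A0 : Measure X) (f : G → X → ℝ) (p : X) (g : G) : ℝ :=
  ∫ x, ww f p g x ∂A0

/-- the difference function -/
def DD (f : G → X → ℝ) (p : X) (g h : G) (x : X) : ℝ := (f h x - f h p) - (f g x - f g p)

theorem ww_pos (g : G) (x : X) : 0 < ww f p g x := Real.exp_pos _

theorem C_nonneg (hJ : JD f C p) : 0 ≤ C := by
  have h1 := hJ.bd 1 p p
  rw [sub_self, abs_zero] at h1
  have h2 := hs_ge_one 1
  by_contra hc
  push Not at hc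
  nlinarith

theorem ww_cont (hJ : JD f C p) (g : G) : Continuous (ww f p g) := by
  unfold ww
  exact Real.continuous_exp.comp (continuous_const.mul ((hJ.cont g).sub continuous_const))

theorem DD_cont (hJ : JD f C p) (g h : G) : Continuous (DD f p g h) := by
  unfold DD
  exact ((hJ.cont h).sub continuous_const).sub ((hJ.cont g).sub continuous_const)

theorem ww_le (hJ : JD f C p) (g : G) (x : X) : ww f p g x ≤ Real.exp (2 * C * hs g) := by
  unfold ww
  refine Real.exp_le_exp.2 ?_
  have := (abs_le.1 (hJ.bd g x p)).1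
  linarith

theorem ww_ge (hJ : JD f C p) (g : G) (x : X) : Real.exp (-(2 * C * hs g)) ≤ ww f p g x := by
  unfold ww
  refine Real.exp_le_exp.2 ?_
  have := (abs_le.1 (hJ.bd g x p)).2
  linarith

theorem DD_bound (hJ : JD f C p) (g h : G) (x : X) : |DD f p g h x| ≤ C * (hs g + hs h) := by
  unfold DD
  have h1 := abs_le.1 (hJ.bd g x p)
  have h2 := abs_le.1 (hJ.bd h x p)
  rw [abs_le]
  constructor <;> linarith [h1.1, h1.2, h2.1, h2.2]

theorem ww_int (hJ : JD f C p) (g : G) : Integrable (ww f p g) A0 := by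
  refine Integrable.of_bound (ww_cont hJ g).aestronglyMeasurable (Real.exp (2 * C * hs g)) ?_
  refine Eventually.of_forall fun x => ?_
  rw [Real.norm_eq_abs, abs_of_pos (ww_pos g x)]
  exact ww_le hJ g x

theorem DDw_int (hJ : JD f C p) (g h : G) : Integrable (fun x => ww f p g x * DD f p g h x) A0 := by
  refine Integrable.of_bound ((ww_cont hJ g).mul (DD_cont hJ g h)).aestronglyMeasurable
    (Real.exp (2 * C * hs g) * (C * (hs g + hs h))) ?_
  refine Eventually.of_forall fun x => ?_
  rw [Real.norm_eq_abs, abs_mul, abs_of_pos (ww_pos g x)]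
  exact mul_le_mul (ww_le hJ g x) (DD_bound hJ g h x) (abs_nonneg _) (Real.exp_pos _).le

theorem area_pos (p : X) (A0 : Measure X) [IsFiniteMeasure A0] [A0.IsOpenPosMeasure] :
    0 < A0.real univ := by
  have : Nonempty X := ⟨p⟩
  exact ENNReal.toReal_pos (isOpen_univ.measure_pos A0 univ_nonempty).ne' (measure_ne_top _ _)

theorem ZZ_le (hJ : JD f C p) (g : G) : ZZ A0 f p g ≤ Real.exp (2 * C * hs g) * A0.real univ := by
  unfold ZZ
  calc ∫ x, ww f p g x ∂A0 ≤ ∫ _x, Real.exp (2 * C * hs g) ∂A0 :=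
        integral_mono (ww_int hJ g) (integrable_const _) fun x => ww_le hJ g x
    _ = _ := by rw [integral_const, smul_eq_mul, mul_comm]

theorem ZZ_ge (hJ : JD f C p) (g : G) :
    Real.exp (-(2 * C * hs g)) * A0.real univ ≤ ZZ A0 f p g := by
  unfold ZZ
  calc Real.exp (-(2 * C * hs g)) * A0.real univ = ∫ _x, Real.exp (-(2 * C * hs g)) ∂A0 := by
        rw [integral_const, smul_eq_mul, mul_comm]
    _ ≤ ∫ x, ww f p g x ∂A0 :=
        integral_mono (integrable_const _) (ww_int hJ g) fun x => ww_ge hJ g x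

theorem ZZ_pos (hJ : JD f C p) (g : G) : 0 < ZZ A0 f p g :=
  lt_of_lt_of_le (mul_pos (Real.exp_pos _) (area_pos p A0)) (ZZ_ge hJ g)

theorem ZZ_cont (hJ : JD f C p) : Continuous (ZZ A0 f p) := by
  rw [continuous_iff_continuousAt]
  intro g0
  have hC := C_nonneg hJ
  refine continuousAt_of_dominated (bound := fun _ => Real.exp (2 * C * (hs g0 + 1))) ?_ ?_
    (integrable_const _) ?_
  · exact Eventually.of_forall fun g => (ww_cont hJ g).aestronglyMeasurable
  · have h1 : ∀ᶠ g in 𝓝 g0, hs g < hs g0 + 1 :=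
      cont_hs.continuousAt.eventually_lt continuousAt_const (by linarith)
    filter_upwards [h1] with g hg
    refine Eventually.of_forall fun x => ?_
    rw [Real.norm_eq_abs, abs_of_pos (ww_pos g x)]
    refine (ww_le hJ g x).trans (Real.exp_le_exp.2 ?_)
    exact mul_le_mul_of_nonneg_left hg.le (by linarith)
  · refine Eventually.of_forall fun x => ?_
    have h1 := (hJ.cmv x).1
    unfold ww
    exact (Real.continuous_exp.comp (continuous_const.mul h1)).continuousAt

/-- the mean of the difference -/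
noncomputable def mD (A0 : Measure X) (f : G → X → ℝ) (p : X) (g h : G) : ℝ :=
  (∫ x, ww f p g x * DD f p g h x ∂A0) / ZZ A0 f p g

theorem jensen_aux (hJ : JD f C p) (g h : G) :
    ZZ A0 f p h - Real.exp (-2 * mD A0 f p g h) * ZZ A0 f p g =
      ∫ x, Real.exp (-2 * mD A0 f p g h) * (ww f p g x *
        (Real.exp (-2 * (DD f p g h x - mD A0 f p g h)) - 1 +
          2 * (DD f p g h x - mD A0 f p g h))) ∂A0 := by
  obtain ⟨m, hm⟩ : ∃ m, m = mD A0 f p g h := ⟨_, rfl⟩
  rw [← hm]
  have hm' : ∫ x, ww f p g x * DD f p g h x ∂A0 = m * ZZ A0 f p g := by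
    rw [hm, mD, div_mul_cancel₀ _ (ZZ_pos hJ g).ne']
  have e1 : ∀ x, Real.exp (-2 * m) * (ww f p g x * (Real.exp (-2 * (DD f p g h x - m)) - 1 +
      2 * (DD f p g h x - m))) = ww f p h x +
        ((2 * Real.exp (-2 * m)) * (ww f p g x * DD f p g h x) -
          (Real.exp (-2 * m) * (1 + 2 * m)) * ww f p g x) := by
    intro x
    have e2 : ww f p h x = Real.exp (-2 * m) * (ww f p g x * Real.exp (-2 * (DD f p g h x - m))) := by
      unfold ww DD
      rw [← Real.exp_add, ← Real.exp_add]
      congr 1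
      ring
    rw [e2]
    ring
  simp only [e1]
  have hA : Integrable (fun x => (2 * Real.exp (-2 * m)) * (ww f p g x * DD f p g h x) -
      (Real.exp (-2 * m) * (1 + 2 * m)) * ww f p g x) A0 :=
    ((DDw_int hJ g h).const_mul _).sub ((ww_int hJ g).const_mul _)
  rw [integral_add (ww_int hJ h) hA,
    integral_sub ((DDw_int hJ g h).const_mul _) ((ww_int hJ g).const_mul _),
    integral_const_mul, integral_const_mul, hm']
  unfold ZZ
  ring

theorem exp_ineq (t : ℝ) : 0 ≤ Real.exp (-2 * t) - 1 + 2 * t := by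
  have := Real.add_one_le_exp (-2 * t)
  linarith

theorem exp_eq {t : ℝ} (h : Real.exp (-2 * t) - 1 + 2 * t = 0) : t = 0 := by
  by_contra hne
  have := Real.add_one_lt_exp (x := -2 * t) (by
    intro h0
    apply hne
    linarith)
  linarith

theorem jensen_ge (hJ : JD f C p) (g h : G) :
    Real.log (ZZ A0 f p g) - 2 * mD A0 f p g h ≤ Real.log (ZZ A0 f p h) := by
  have h1 := jensen_aux (A0 := A0) hJ g h
  have h2 : 0 ≤ ∫ x, Real.exp (-2 * mD A0 f p g h) * (ww f p g x *
        (Real.exp (-2 * (DD f p g h x - mD A0 f p g h)) - 1 +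
          2 * (DD f p g h x - mD A0 f p g h))) ∂A0 :=
    integral_nonneg fun x => mul_nonneg (Real.exp_pos _).le
      (mul_nonneg (ww_pos g x).le (exp_ineq _))
  have h3 : Real.exp (-2 * mD A0 f p g h) * ZZ A0 f p g ≤ ZZ A0 f p h := by linarith
  have h4 := Real.log_le_log (mul_pos (Real.exp_pos _) (ZZ_pos hJ g)) h3
  rw [Real.log_mul (Real.exp_pos _).ne' (ZZ_pos hJ g).ne', Real.log_exp] at h4
  linarith

theorem jensen_eq (hJ : JD f C p) (g h : G)
    (he : Real.log (ZZ A0 f p g) - 2 * mD A0 f p g h = Real.log (ZZ A0 f p h)) (x : X) :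
    DD f p g h x = 0 := by
  have h1 := jensen_aux (A0 := A0) hJ g h
  have h3 : Real.exp (-2 * mD A0 f p g h) * ZZ A0 f p g = ZZ A0 f p h := by
    refine Real.log_injOn_pos (mul_pos (Real.exp_pos _) (ZZ_pos hJ g)) (ZZ_pos hJ h) ?_
    rw [Real.log_mul (Real.exp_pos _).ne' (ZZ_pos hJ g).ne', Real.log_exp]
    linarith
  rw [h3, sub_self] at h1
  obtain ⟨m, hm⟩ : ∃ m, m = mD A0 f p g h := ⟨_, rfl⟩
  rw [← hm] at h1
  have hcont : Continuous fun x => Real.exp (-2 * m) * (ww f p g x *
        (Real.exp (-2 * (DD f p g h x - m)) - 1 + 2 * (DD f p g h x - m))) := by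
    have c1 := DD_cont hJ g h
    have c2 := ww_cont hJ g
    fun_prop
  have hnn : ∀ x, 0 ≤ Real.exp (-2 * m) * (ww f p g x *
        (Real.exp (-2 * (DD f p g h x - m)) - 1 + 2 * (DD f p g h x - m))) := fun x =>
    mul_nonneg (Real.exp_pos _).le (mul_nonneg (ww_pos g x).le (exp_ineq _))
  have hint : Integrable (fun x => Real.exp (-2 * m) * (ww f p g x *
        (Real.exp (-2 * (DD f p g h x - m)) - 1 + 2 * (DD f p g h x - m)))) A0 := by
    have e1 : ∀ x, Real.exp (-2 * m) * (ww f p g x * (Real.exp (-2 * (DD f p g h x - m)) - 1 +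
      2 * (DD f p g h x - m))) = ww f p h x +
        ((2 * Real.exp (-2 * m)) * (ww f p g x * DD f p g h x) -
          (Real.exp (-2 * m) * (1 + 2 * m)) * ww f p g x) := by
      intro x
      have e2 : ww f p h x =
          Real.exp (-2 * m) * (ww f p g x * Real.exp (-2 * (DD f p g h x - m))) := by
        unfold ww DD
        rw [← Real.exp_add, ← Real.exp_add]
        congr 1
        ring
      rw [e2]
      ring
    simp only [e1]
    exact (ww_int hJ h).add (((DDw_int hJ g h).const_mul _).sub ((ww_int hJ g).const_mul _))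
  have hae := (integral_eq_zero_iff_of_nonneg hnn hint).1 h1.symm
  have hall := (Continuous.ae_eq_iff_eq A0 hcont continuous_zero).1 hae
  have hconst : ∀ y, DD f p g h y = m := by
    intro y
    have h4 := congrFun hall y
    simp only [Pi.zero_apply] at h4
    have h5 := (mul_eq_zero.1 h4).resolve_left (Real.exp_pos _).ne'
    have h6 := (mul_eq_zero.1 h5).resolve_left (ww_pos g y).ne'
    have h7 := exp_eq h6
    linarith
  have hp : DD f p g h p = 0 := by
    unfold DD
    ring
  rw [hconst x, ← hconst p, hp]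

/-! ### averages over circles -/

theorem circ_cont (r : ℝ) (g : G) : Continuous fun θ : ℝ => dia r * rot θ * g :=
  (continuous_const.mul cont_rot).mul continuous_const

theorem hs_circ (r θ : ℝ) (g : G) : hs (dia r * rot θ * g) ≤ hs (dia r) * 2 * hs g :=
  (hs_mul _ _).trans (mul_le_mul_of_nonneg_right
    ((hs_mul _ _).trans (mul_le_mul_of_nonneg_left (hs_rot θ) (hs_nonneg _))) (hs_nonneg _))

theorem circ_DD (hJ : JD f C p) (r : ℝ) (hr : 0 ≤ r) (g : G) (x : X) :
    ∫ θ in (0 : ℝ)..(2 * Real.pi), DD f p g (dia r * rot θ * g) x = 0 := by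
  have h1 := (hJ.cmv x).2 r g hr
  simp only at h1
  have hc := ((hJ.cmv x).1.comp (circ_cont r g))
  unfold DD
  have hi : IntervalIntegrable (fun θ : ℝ => f (dia r * rot θ * g) x - f (dia r * rot θ * g) p)
      volume 0 (2 * Real.pi) := by
    apply Continuous.intervalIntegrable
    exact hc
  rw [intervalIntegral.integral_sub hi intervalIntegrable_const, intervalIntegral.integral_const]
  have hpi := Real.pi_pos
  have h2 : ∫ θ in (0 : ℝ)..(2 * Real.pi), (f (dia r * rot θ * g) x - f (dia r * rot θ * g) p) =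
      2 * Real.pi * (f g x - f g p) := by
    rw [← h1]
    field_simp
  rw [h2]
  simp

theorem prod_int (hJ : JD f C p) (r : ℝ) (g : G) :
    Integrable (Function.uncurry fun (θ : ℝ) (x : X) =>
      ww f p g x * DD f p g (dia r * rot θ * g) x)
      ((volume.restrict (Ι (0 : ℝ) (2 * Real.pi))).prod A0) := by
  have hvol : IsFiniteMeasure (volume.restrict (Ι (0 : ℝ) (2 * Real.pi))) := by
    rw [uIoc_of_le (by positivity)]
    infer_instance
  have hm : Measurable (Function.uncurry fun (θ : ℝ) (x : X) =>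
      ww f p g x * DD f p g (dia r * rot θ * g) x) := by
    refine measurable_uncurry_of_continuous_of_measurable (fun x => ?_) fun θ => ?_
    · unfold DD
      have hc := ((hJ.cmv x).1.comp (circ_cont r g))
      exact continuous_const.mul (hc.sub continuous_const)
    · exact ((ww_cont hJ g).mul (DD_cont hJ g _)).measurable
  have hC := C_nonneg hJ
  refine Integrable.of_bound hm.aestronglyMeasurable
    (Real.exp (2 * C * hs g) * (C * (hs g + hs (dia r) * 2 * hs g))) ?_
  refine Eventually.of_forall fun q => ?_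
  rw [Real.norm_eq_abs]
  simp only [Function.uncurry]
  rw [abs_mul, abs_of_pos (ww_pos g q.2)]
  refine mul_le_mul (ww_le hJ g q.2) ((DD_bound hJ g _ q.2).trans ?_) (abs_nonneg _)
    (Real.exp_pos _).le
  exact mul_le_mul_of_nonneg_left (by linarith [hs_circ r q.1 g]) hC

theorem mD_int (hJ : JD f C p) (r : ℝ) (g : G) :
    IntervalIntegrable (fun θ => mD A0 f p g (dia r * rot θ * g)) volume 0 (2 * Real.pi) := by
  have h1 := (prod_int (A0 := A0) hJ r g).integral_prod_left
  rw [intervalIntegrable_iff]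
  exact h1.div_const _

theorem mD_avg (hJ : JD f C p) (r : ℝ) (hr : 0 ≤ r) (g : G) :
    ∫ θ in (0 : ℝ)..(2 * Real.pi), mD A0 f p g (dia r * rot θ * g) = 0 := by
  unfold mD
  rw [intervalIntegral.integral_div, intervalIntegral_integral_swap (prod_int hJ r g)]
  have : ∀ x, ∫ θ in (0 : ℝ)..(2 * Real.pi), ww f p g x * DD f p g (dia r * rot θ * g) x = 0 := by
    intro x
    rw [intervalIntegral.integral_const_mul, circ_DD hJ r hr g x, mul_zero]
  simp only [this]
  simp

theorem logZ_cont (hJ : JD f C p) : Continuous fun g => Real.log (ZZ A0 f p g) :=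
  (ZZ_cont hJ).log fun g => (ZZ_pos hJ g).ne'

theorem logZ_int (hJ : JD f C p) (r : ℝ) (g : G) :
    IntervalIntegrable (fun θ => Real.log (ZZ A0 f p (dia r * rot θ * g))) volume 0
      (2 * Real.pi) := by
  apply Continuous.intervalIntegrable
  exact (logZ_cont hJ).comp (circ_cont r g)

theorem avg_ge (hJ : JD f C p) (r : ℝ) (hr : 0 ≤ r) (g : G) :
    2 * Real.pi * Real.log (ZZ A0 f p g) ≤
      ∫ θ in (0 : ℝ)..(2 * Real.pi), Real.log (ZZ A0 f p (dia r * rot θ * g)) := by
  have h1 : ∫ θ in (0 : ℝ)..(2 * Real.pi), (Real.log (ZZ A0 f p g) -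
      2 * mD A0 f p g (dia r * rot θ * g)) ≤
      ∫ θ in (0 : ℝ)..(2 * Real.pi), Real.log (ZZ A0 f p (dia r * rot θ * g)) :=
    intervalIntegral.integral_mono (by positivity)
      (intervalIntegrable_const.sub ((mD_int hJ r g).const_mul 2)) (logZ_int hJ r g)
      fun θ => jensen_ge hJ g _
  rw [intervalIntegral.integral_sub intervalIntegrable_const ((mD_int hJ r g).const_mul 2),
    intervalIntegral.integral_const, intervalIntegral.integral_const_mul, mD_avg hJ r hr g] at h1
  simpa using h1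

theorem avg_eq (hJ : JD f C p) (r : ℝ) (hr : 0 ≤ r) (g : G)
    (he : ∫ θ in (0 : ℝ)..(2 * Real.pi), Real.log (ZZ A0 f p (dia r * rot θ * g)) =
      2 * Real.pi * Real.log (ZZ A0 f p g)) (x : X) :
    DD f p g (dia r * rot 0 * g) x = 0 := by
  have hpi := Real.pi_pos
  obtain ⟨φ, hφ⟩ : ∃ φ : ℝ → ℝ, φ = fun θ => Real.log (ZZ A0 f p (dia r * rot θ * g)) -
      (Real.log (ZZ A0 f p g) - 2 * mD A0 f p g (dia r * rot θ * g)) := ⟨_, rfl⟩
  have hφ0 : ∀ θ, 0 ≤ φ θ := fun θ => by
    rw [hφ]
    have := jensen_ge (A0 := A0) hJ g (dia r * rot θ * g)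
    simp only
    linarith
  have hφi : IntervalIntegrable φ volume 0 (2 * Real.pi) := by
    rw [hφ]
    exact (logZ_int hJ r g).sub (intervalIntegrable_const.sub ((mD_int hJ r g).const_mul 2))
  have hφI : ∫ θ in (0 : ℝ)..(2 * Real.pi), φ θ = 0 := by
    rw [hφ]
    simp only
    rw [intervalIntegral.integral_sub (logZ_int hJ r g)
      (intervalIntegrable_const.sub ((mD_int hJ r g).const_mul 2)),
      intervalIntegral.integral_sub intervalIntegrable_const ((mD_int hJ r g).const_mul 2),
      intervalIntegral.integral_const, intervalIntegral.integral_const_mul, mD_avg hJ r hr g, he]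
    simp
  have hae : φ =ᵐ[volume.restrict (Ioc 0 (2 * Real.pi))] 0 := by
    rw [intervalIntegral.integral_of_le (by positivity)] at hφI
    exact (setIntegral_eq_zero_iff_of_nonneg_ae (Eventually.of_forall hφ0) (by
      rwa [intervalIntegrable_iff_integrableOn_Ioc_of_le (by positivity)] at hφi)).1 hφI
  have hcD : Continuous fun θ : ℝ => DD f p g (dia r * rot θ * g) x := by
    unfold DD
    have hc := ((hJ.cmv x).1.comp (circ_cont r g))
    exact hc.sub continuous_const
  have hzero : ∀ᵐ θ ∂(volume.restrict (Ioc 0 (2 * Real.pi))),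
      DD f p g (dia r * rot θ * g) x = 0 := by
    filter_upwards [hae] with θ hθ
    refine jensen_eq (A0 := A0) hJ g _ ?_ x
    rw [hφ] at hθ
    simp only [Pi.zero_apply] at hθ
    linarith
  -- the set of nonzero points in the open interval is open and null
  have hopen : IsOpen ({θ : ℝ | DD f p g (dia r * rot θ * g) x ≠ 0} ∩ Ioo 0 (2 * Real.pi)) :=
    (isOpen_ne_fun hcD continuous_const).inter isOpen_Ioo
  have hnull : volume ({θ : ℝ | DD f p g (dia r * rot θ * g) x ≠ 0} ∩ Ioo 0 (2 * Real.pi)) = 0 := by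
    rw [ae_restrict_iff' measurableSet_Ioc, ae_iff] at hzero
    refine measure_mono_null ?_ hzero
    rintro θ ⟨h1, h2⟩
    simp only [mem_ofPred_eq] at h1 ⊢
    intro h3
    exact h1 (h3 ⟨h2.1, h2.2.le⟩)
  have hempty := (hopen.measure_eq_zero_iff volume).1 hnull
  have hIoo : ∀ θ ∈ Ioo 0 (2 * Real.pi), DD f p g (dia r * rot θ * g) x = 0 := by
    intro θ hθ
    by_contra hne
    have : θ ∈ ({θ : ℝ | DD f p g (dia r * rot θ * g) x ≠ 0} ∩ Ioo 0 (2 * Real.pi)) := ⟨hne, hθ⟩
    rw [hempty] at this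
    exact this
  have hclosed : IsClosed {θ : ℝ | DD f p g (dia r * rot θ * g) x = 0} :=
    isClosed_eq hcD continuous_const
  have h0 : (0 : ℝ) ∈ closure (Ioo 0 (2 * Real.pi)) := by
    rw [closure_Ioo (by positivity)]
    exact ⟨le_rfl, by positivity⟩
  exact hclosed.closure_subset_iff.2 hIoo h0

theorem logZ_bound (hJ : JD f C p) (g : G) :
    |Real.log (ZZ A0 f p g)| ≤ (2 * C + |Real.log (A0.real univ)|) * hs g := by
  have hC := C_nonneg hJ
  have ha := area_pos p A0
  have h1 := Real.log_le_log (ZZ_pos hJ g) (ZZ_le (A0 := A0) hJ g)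
  have h2 := Real.log_le_log (mul_pos (Real.exp_pos _) ha) (ZZ_ge (A0 := A0) hJ g)
  rw [Real.log_mul (Real.exp_pos _).ne' ha.ne', Real.log_exp] at h1 h2
  have h3 := hs_ge_one g
  have h4 : |Real.log (A0.real univ)| ≤ |Real.log (A0.real univ)| * hs g :=
    le_mul_of_one_le_right (abs_nonneg _) h3
  have h5 := le_abs_self (Real.log (A0.real univ))
  have h6 := neg_abs_le (Real.log (A0.real univ))
  rw [abs_le]
  constructor <;> nlinarith

end

theorem rot_zero : rot 0 = 1 := by
  apply Subtype.ext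
  unfold rot
  ext i j
  fin_cases i <;> fin_cases j <;> simp

theorem st_JENSEN (hLi : ST_LIOU) (hT : ST_TRANS) : ST_JENSEN.{u} := by
  intro X _ _ _ _ P A0 Γ f C hfin hop hP hΓ hcont hcmv hrot hbd hγ
  obtain ⟨p0, hp0⟩ := hP
  have hJ : ∀ p ∈ P, JD f C p := fun p hp => ⟨hcont, fun x => hcmv x p hp, hrot, hbd⟩
  have hpi := Real.pi_pos
  obtain ⟨F, hF⟩ : ∃ F : G → ℝ, F = fun g => ∑ p ∈ P, Real.log (ZZ A0 f p g) := ⟨_, rfl⟩
  have hFc : Continuous F := by
    rw [hF]
    exact continuous_finsetSum _ fun p hp => logZ_cont (hJ p hp)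
  have hFrot : ∀ θ g, F (rot θ * g) = F g := by
    intro θ g
    rw [hF]
    simp only
    refine Finset.sum_congr rfl fun p hp => ?_
    unfold ZZ ww
    simp only [hrot]
  have hFγ : ∀ γ ∈ Γ, ∃ c, ∀ g, F (g * γ) = F g + c := by
    intro γ hγm
    obtain ⟨φ, j, hφP, hj, hfj, hmeas⟩ := hγ γ hγm
    refine ⟨∑ p ∈ P, 2 * j p, fun g => ?_⟩
    have key : ∀ p ∈ P, Real.log (ZZ A0 f p (g * γ)) = 2 * j p + Real.log (ZZ A0 f (φ p) g) := by
      intro p hp
      have hp' : φ p ∈ P := (hφP p).2 hp
      have hZ : ZZ A0 f p (g * γ) = Real.exp (2 * j p) * ZZ A0 f (φ p) g := by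
        have e1 : ∀ x, ww f p (g * γ) x =
            Real.exp (2 * j p) * (ww f (φ p) g (φ x) * Real.exp (-2 * j x)) := by
          intro x
          unfold ww
          rw [hfj, ← Real.exp_add, ← Real.exp_add]
          congr 1
          ring
        unfold ZZ
        simp only [e1]
        rw [integral_const_mul]
        congr 1
        have hwc := ww_cont (hJ _ hp') g
        rw [integral_eq_lintegral_of_nonneg_ae
          (Eventually.of_forall fun x => mul_nonneg (ww_pos _ _).le (Real.exp_pos _).le),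
          integral_eq_lintegral_of_nonneg_ae (Eventually.of_forall fun x => (ww_pos _ _).le)
          hwc.aestronglyMeasurable]
        · congr 1
          rw [← hmeas (fun y => ENNReal.ofReal (ww f (φ p) g y))
            (ENNReal.measurable_ofReal.comp hwc.measurable)]
          refine lintegral_congr fun x => ?_
          rw [ENNReal.ofReal_mul (ww_pos _ _).le]
        · refine Continuous.aestronglyMeasurable ?_
          exact (hwc.comp φ.continuous).mul (Real.continuous_exp.comp (continuous_const.mul hj))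
      rw [hZ, Real.log_mul (Real.exp_pos _).ne' (ZZ_pos (hJ _ hp') g).ne', Real.log_exp]
    rw [hF]
    simp only
    rw [Finset.sum_congr rfl key, Finset.sum_add_distrib]
    have h2 : ∑ p ∈ P, Real.log (ZZ A0 f (φ p) g) = ∑ p ∈ P, Real.log (ZZ A0 f p g) :=
      Finset.sum_equiv φ.toEquiv (fun p => (hφP p).symm) (fun p hp => rfl)
    rw [h2]
    ring
  have hFb : ∃ C, ∀ g, |F g| ≤ C * hs g := by
    refine ⟨∑ _p ∈ P, (2 * C + |Real.log (A0.real univ)|), fun g => ?_⟩
    rw [hF]
    simp only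
    refine (Finset.abs_sum_le_sum_abs _ _).trans ?_
    rw [Finset.sum_mul]
    exact Finset.sum_le_sum fun p hp => logZ_bound (hJ p hp) g
  have hFint : ∀ r g, ∫ θ in (0 : ℝ)..(2 * Real.pi), F (dia r * rot θ * g) =
      ∑ p ∈ P, ∫ θ in (0 : ℝ)..(2 * Real.pi), Real.log (ZZ A0 f p (dia r * rot θ * g)) := by
    intro r g
    rw [hF]
    simp only
    exact intervalIntegral.integral_finsetSum fun p hp => logZ_int (hJ p hp) r g
  have hsub : ∀ r g, 0 ≤ r →
      F g ≤ (1 / (2 * Real.pi)) * ∫ θ in (0 : ℝ)..(2 * Real.pi), F (dia r * rot θ * g) := by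
    intro r g hr
    have h1 : 2 * Real.pi * F g ≤ ∫ θ in (0 : ℝ)..(2 * Real.pi), F (dia r * rot θ * g) := by
      rw [hFint]
      have : F g = ∑ p ∈ P, Real.log (ZZ A0 f p g) := by rw [hF]
      rw [this, Finset.mul_sum]
      exact Finset.sum_le_sum fun p hp => avg_ge (hJ p hp) r hr g
    calc F g = (1 / (2 * Real.pi)) * (2 * Real.pi * F g) := by field_simp
      _ ≤ _ := mul_le_mul_of_nonneg_left h1 (by positivity)
  have heq := hLi Γ hΓ F hFc hFrot hFγ hFb hsub
  have hterm : ∀ r g, 0 ≤ r → ∀ x, ∀ p ∈ P, DD f p g (dia r * rot 0 * g) x = 0 := by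
    intro r g hr x
    have h1 := heq r g hr
    have h2 : ∑ p ∈ P, ((∫ θ in (0 : ℝ)..(2 * Real.pi), Real.log (ZZ A0 f p (dia r * rot θ * g))) -
        2 * Real.pi * Real.log (ZZ A0 f p g)) = 0 := by
      rw [Finset.sum_sub_distrib, ← hFint, ← Finset.mul_sum]
      have : F g = ∑ p ∈ P, Real.log (ZZ A0 f p g) := by rw [hF]
      rw [← this, h1]
      field_simp
      ring
    have h3 := (Finset.sum_eq_zero_iff_of_nonneg fun p hp =>
      sub_nonneg.2 (avg_ge (A0 := A0) (hJ p hp) r hr g)).1 h2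
    intro p hp
    exact avg_eq (A0 := A0) (hJ p hp) r hr g (sub_eq_zero.1 (h3 p hp)) x
  have hdia : ∀ r g, 0 ≤ r → ∀ x y, f (dia r * g) x - f (dia r * g) y = f g x - f g y := by
    intro r g hr x y
    have h1 := hterm r g hr x p0 hp0
    have h2 := hterm r g hr y p0 hp0
    rw [rot_zero, mul_one] at h1 h2
    unfold DD at h1 h2
    linarith
  intro g g' x y
  obtain ⟨r, θ, θ', hr, hg'⟩ := hT.2 g g'
  rw [hg', mul_assoc, mul_assoc, hrot, hdia r _ hr, hrot]

end Pool.Agent.Helper55.Dil
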